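import Pool.Agent.helper48.TH.Spec3

/-!
# Row tha:DRR (second prover) of project TH: decoupling for algorithms in rounds from the entropy theorem
-/

set_option autoImplicit false

namespace TP.TW

open DP MeasureTheory Finset

private lemma DRR_nonneg (F : Set (V → Bool)) : 0 ≤ Pr F := by
  unfold Pr
  exact measureReal_nonneg

private lemma DRR_le_one (F : Set (V → Bool)) : Pr F ≤ 1 := by
  haveI : IsProbabilityMeasure P1 := by
    unfold P1
    infer_instance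
  unfold Pr
  exact measureReal_le_one

private lemma DRR_mono {F G : Set (V → Bool)} (h : F ⊆ G) : Pr F ≤ Pr G := by
  haveI : IsProbabilityMeasure P1 := by
    unfold P1
    infer_instance
  unfold Pr
  exact measureReal_mono h (measure_ne_top _ _)

private lemma DRR_dep {Ω : Finset V} {S : ℕ → (V → Bool) → Finset V} (hS : RV Ω S) :
    ∀ (i : ℕ) (β β' : V → Bool), (∀ v ∈ Ω, β v = β' v) → S i β = S i β'
  | 0, β, β', _ => by rw [hS.2.1 β, hS.2.1 β']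
  | i + 1, β, β', h => ((hS.2.2 i β).2.2 β' fun v hv => (h v ((hS.2.2 i β).2.1 hv)).symm).symm

private lemma DRR_sub {Ω : Finset V} {S : ℕ → (V → Bool) → Finset V} (hS : RV Ω S) (β : V → Bool)
    {i k : ℕ} (h : i ≤ k) : S i β ⊆ S k β := by
  induction k, h using Nat.le_induction with
  | base => exact fun v hv => hv
  | succ k _ ih => exact ih.trans (hS.2.2 k β).1

theorem DRR (h1 : EN.ENT_stmt) (h2 : PRN_stmt) (h3 : SHP_stmt) : DRR_stmt := by
  classical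
  intro j
  obtain ⟨C, hC, hENT⟩ := h1 j
  refine ⟨C, hC, ?_⟩
  intro Ω S hS
  have hdep := DRR_dep hS
  refine ⟨hS.1, fun β => (hS.2.2 (j + 1) β).2.1, ⟨Ω, fun β β' h => hdep (j + 1) β β' h⟩,
    fun v => DRR_nonneg _, fun v hv => ?_, hC.le, ?_⟩
  · have h4 : {β : V → Bool | v ∈ S (j + 1) β} = ∅ := by
      rw [Set.eq_empty_iff_forall_notMem]
      intro β hβ
      exact hv ((hS.2.2 (j + 1) β).2.1 hβ)
    show Pr {β : V → Bool | v ∈ S (j + 1) β} = 0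
    rw [h4]
    unfold Pr
    simp
  intro T U Λ z E hE hU
  rcases (DRR_nonneg E).eq_or_lt with h0 | hpos
  · have h4 : ∀ τ ∈ T, Pr (E ∩ {β | (z.1 - τ.1, z.2 - τ.2) ∈
        S (j + 1) (fun v => β (v.1 + τ.1, v.2 + τ.2))}) = 0 := fun τ _ =>
      le_antisymm ((DRR_mono Set.inter_subset_left).trans h0.symm.le) (DRR_nonneg _)
    rw [sum_eq_zero h4, ← h0]
    simp
  obtain ⟨Ω', hΩ'⟩ : ∃ Ω' : Finset V, Ω' = insert z (Λ ∪ T.biUnion fun τ =>
      Ω.image fun v => (v.1 + τ.1, v.2 + τ.2)) := ⟨_, rfl⟩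
  have hzΩ : z ∈ Ω' := hΩ' ▸ mem_insert_self _ _
  have hΛ : Λ ⊆ Ω' := fun v hv => hΩ' ▸ mem_insert_of_mem (mem_union_left _ hv)
  have hΩT : ∀ τ ∈ T, ∀ v ∈ Ω, ((v.1 + τ.1, v.2 + τ.2) : V) ∈ Ω' := by
    intro τ hτ v hv
    rw [hΩ']
    refine mem_insert_of_mem (mem_union_right _ ?_)
    rw [mem_biUnion]
    exact ⟨τ, hτ, mem_image.2 ⟨v, hv, rfl⟩⟩
  obtain ⟨e⟩ : Nonempty ({v // v ∈ Ω'} ≃ Fin #Ω') := ⟨Ω'.equivFin⟩
  have hε : Function.Injective (fun i : Fin #Ω' => ((e.symm i : {v // v ∈ Ω'}) : V)) := by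
    intro i j h
    exact e.symm.injective (Subtype.ext h)
  obtain ⟨ex, hex⟩ : ∃ ex : (Fin #Ω' → Bool) → V → Bool, ∀ x v (h : v ∈ Ω'), ex x v = x (e ⟨v, h⟩) :=
    ⟨fun x v => if h : v ∈ Ω' then x (e ⟨v, h⟩) else false, fun x v h => dif_pos h⟩
  have hex1 : ∀ (β : V → Bool), ∀ v ∈ Ω', ex (fun i => β (e.symm i : {v // v ∈ Ω'})) v = β v := by
    intro β v hv
    rw [hex _ v hv, Equiv.symm_apply_apply]
  have hex2 : ∀ (B : Finset V), B ⊆ Ω' → ∀ x y : Fin #Ω' → Bool,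
      (∀ i ∈ univ.filter (fun i : Fin #Ω' => ((e.symm i : {v // v ∈ Ω'}) : V) ∈ B), x i = y i) →
      ∀ v ∈ B, ex x v = ex y v := by
    intro B hB x y hxy v hv
    rw [hex _ v (hB hv), hex _ v (hB hv)]
    apply hxy
    rw [mem_filter, Equiv.symm_apply_apply]
    exact ⟨mem_univ _, hv⟩
  have hPr : ∀ G : Set (V → Bool), CD G Ω' → ∀ (P : (Fin #Ω' → Bool) → Prop) [DecidablePred P],
      (∀ x, P x ↔ ex x ∈ G) → Pr G = (#(univ.filter P) : ℝ) / 2 ^ #Ω' := by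
    intro G hG P _ hP
    have h1 : G = {β : V → Bool | (fun x => ex x ∈ G) (fun i => β (e.symm i : {v // v ∈ Ω'}))} := by
      ext β
      exact (hG _ _ (hex1 β)).symm
    have h2 := h2 #Ω' (fun i : Fin #Ω' => ((e.symm i : {v // v ∈ Ω'}) : V)) hε (fun x => ex x ∈ G)
    rw [← h1] at h2
    rw [h2]
    congr 2
    refine congrArg Finset.card ?_
    ext x
    simp only [mem_filter, hP]
  have hEΩ : CD E Ω' := fun b b' hb => hE b b' fun v hv => hb v (hΛ hv)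
  -- the events
  obtain ⟨F, hF⟩ : ∃ F : V → ℕ → V → Set (V → Bool), ∀ τ k v β, β ∈ F τ k v ↔
      (v.1 - τ.1, v.2 - τ.2) ∈ S k (fun u => β (u.1 + τ.1, u.2 + τ.2)) :=
    ⟨fun τ k v => {β | (v.1 - τ.1, v.2 - τ.2) ∈ S k (fun u => β (u.1 + τ.1, u.2 + τ.2))},
      fun _ _ _ _ => Iff.rfl⟩
  have hFeq : ∀ τ k v, F τ k v = {β | (v.1 - τ.1, v.2 - τ.2) ∈ S k (fun u => β (u.1 + τ.1, u.2 + τ.2))} := by
    intro τ k v
    ext β
    exact hF τ k v β
  have hCDF : ∀ τ ∈ T, ∀ k v, CD (F τ k v) Ω' := by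
    intro τ hτ k v b b' hb
    rw [hF, hF, hdep k (fun u => b (u.1 + τ.1, u.2 + τ.2)) (fun u => b' (u.1 + τ.1, u.2 + τ.2))
      fun u hu => hb _ (hΩT τ hτ u hu)]
  have hPrF : ∀ (τ : V) (k : ℕ) (v : V), Pr (F τ k v) = Pr {β : V → Bool | (v.1 - τ.1, v.2 - τ.2) ∈ S k β} := by
    intro τ k v
    rw [hFeq]
    exact h3 {β : V → Bool | (v.1 - τ.1, v.2 - τ.2) ∈ S k β} Ω
      (fun b b' hb => by rw [Set.mem_setOf_eq, Set.mem_setOf_eq, hdep k b b' hb]) τ.1 τ.2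
  -- the algorithms on `Fin`
  obtain ⟨S', hS'⟩ : ∃ S' : V → ℕ → (Fin #Ω' → Bool) → Finset (Fin #Ω'), ∀ τ i x u, u ∈ S' τ i x ↔
      ex x ∈ F τ (min i (j + 1)) ((e.symm u : {v // v ∈ Ω'}) : V) :=
    ⟨fun τ i x => univ.filter fun u => ex x ∈ F τ (min i (j + 1)) ((e.symm u : {v // v ∈ Ω'}) : V),
      fun τ i x u => by simp⟩
  have hR : ∀ τ ∈ T, EN.Rounds (S' τ) := by
    intro τ hτ
    constructor
    · intro x
      rw [Finset.eq_empty_iff_forall_notMem]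
      intro u hu
      rw [hS', hF, Nat.zero_min, hS.2.1] at hu
      exact absurd hu (Finset.notMem_empty _)
    · intro i x
      constructor
      · intro u hu
        rw [hS', hF] at hu ⊢
        exact DRR_sub hS _ (min_le_min_right _ (Nat.le_succ i)) hu
      · intro y hy
        obtain ⟨i', hi1, hi2⟩ : ∃ i', min (i + 1) (j + 1) = i' + 1 ∧ i' ≤ min i (j + 1) := by
          refine ⟨min i j, ?_, ?_⟩
          · omega
          · omega
        have h4 : S (i' + 1) (fun u => ex y (u.1 + τ.1, u.2 + τ.2)) =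
            S (i' + 1) (fun u => ex x (u.1 + τ.1, u.2 + τ.2)) := by
          apply (hS.2.2 i' _).2.2
          intro v hv
          have hvΩ : v ∈ Ω := (hS.2.2 i' _).2.1 hv
          have hv' := hΩT τ hτ v hvΩ
          rw [hex _ _ hv', hex _ _ hv']
          apply hy
          rw [hS', hF, Equiv.symm_apply_apply]
          have h5 := DRR_sub hS _ hi2 hv
          have h6 : (((v.1 + τ.1, v.2 + τ.2) : V).1 - τ.1, ((v.1 + τ.1, v.2 + τ.2) : V).2 - τ.2) = v := by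
            apply Prod.ext
            · show v.1 + τ.1 - τ.1 = v.1
              ring
            · show v.2 + τ.2 - τ.2 = v.2
              ring
          rw [h6]
          exact h5
        ext u
        rw [hS', hS', hF, hF, hi1, h4]
  obtain ⟨z', hz'⟩ : ∃ z', z' = e ⟨z, hzΩ⟩ := ⟨_, rfl⟩
  have hz'' : ((e.symm z' : {v // v ∈ Ω'}) : V) = z := by rw [hz', Equiv.symm_apply_apply]
  obtain ⟨Λ', hΛ'⟩ : ∃ Λ' : Finset (Fin #Ω'), Λ' =
      univ.filter fun i : Fin #Ω' => ((e.symm i : {v // v ∈ Ω'}) : V) ∈ Λ := ⟨_, rfl⟩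
  obtain ⟨NN, hNN⟩ : ∃ NN : ℝ, NN = ∑ v ∈ U, Pr {β : V → Bool | v ∈ S (j + 1) β} := ⟨_, rfl⟩
  have hNN0 : 0 ≤ NN := hNN ▸ sum_nonneg fun v _ => DRR_nonneg _
  have hmem : ∀ v ∈ insert z' Λ', ((e.symm v : {v // v ∈ Ω'}) : V) ∈ insert z Λ := by
    intro v hv
    rw [mem_insert] at hv ⊢
    rcases hv with hv | hv
    · left
      rw [hv, hz'']
    · right
      rw [hΛ', mem_filter] at hv
      exact hv.2
  have hsumU : ∀ v ∈ insert z Λ, ∑ τ ∈ T, Pr {β : V → Bool | (v.1 - τ.1, v.2 - τ.2) ∈ S (j + 1) β} ≤ NN := by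
    intro v hv
    have hinj : ∀ τ ∈ T, ∀ τ' ∈ T, ((v.1 - τ.1, v.2 - τ.2) : V) = (v.1 - τ'.1, v.2 - τ'.2) → τ = τ' := by
      intro τ _ τ' _ h
      have h4 := congrArg Prod.fst h
      have h5 := congrArg Prod.snd h
      simp only at h4 h5
      exact Prod.ext (by omega) (by omega)
    rw [hNN, ← Finset.sum_image (f := fun u : V => Pr {β : V → Bool | u ∈ S (j + 1) β})
      (g := fun τ : V => ((v.1 - τ.1, v.2 - τ.2) : V)) hinj]
    refine Finset.sum_le_sum_of_subset_of_nonneg ?_ fun u _ _ => DRR_nonneg _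
    intro u hu
    rw [mem_image] at hu
    obtain ⟨τ, hτ, rfl⟩ := hu
    exact hU v hv τ hτ
  obtain ⟨Mn, hMn⟩ : ∃ Mn : ℕ, Mn = #(univ.filter fun x : Fin #Ω' → Bool => ex x ∈ E) := ⟨_, rfl⟩
  have hPE : Pr E = (Mn : ℝ) / 2 ^ #Ω' := by
    rw [hMn]
    exact hPr E hEΩ _ fun _ => Iff.rfl
  have h2N : (0 : ℝ) < 2 ^ #Ω' := by positivity
  have hMpos : (0 : ℝ) < Mn := by
    rw [hPE] at hpos
    by_contra hle
    have h4 : (Mn : ℝ) ≤ 0 := not_lt.1 hle
    have h5 : (Mn : ℝ) / 2 ^ #Ω' ≤ 0 := div_nonpos_of_nonpos_of_nonneg h4 h2N.le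
    linarith
  obtain ⟨Q, hQ⟩ : ∃ Q : (Fin #Ω' → Bool) → ℝ, Q = fun x => if ex x ∈ E then 1 / (Mn : ℝ) else 0 := ⟨_, rfl⟩
  have hLaw : EN.Law Q := by
    constructor
    · intro x
      rw [hQ]
      dsimp only
      split_ifs
      · positivity
      · exact le_refl _
    · rw [hQ, ← Finset.sum_filter, Finset.sum_const, ← hMn, nsmul_eq_mul]
      field_simp
  have hQΛ : ∀ x y : Fin #Ω' → Bool, (∀ u ∈ Λ', x u = y u) → Q x = Q y := by
    intro x y hxy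
    rw [hQ]
    have h4 : ex x ∈ E ↔ ex y ∈ E := hE _ _ (hex2 Λ hΛ x y (by rw [← hΛ']; exact hxy))
    simp only [h4]
  obtain ⟨L, hL⟩ : ∃ L : ℝ, L = Real.log (1 / Pr E) := ⟨_, rfl⟩
  have hL0 : 0 ≤ L := by
    rw [hL]
    exact Real.log_nonneg (one_le_one_div hpos (DRR_le_one E))
  have hQL : ∀ x, Q x ≤ Real.exp L / 2 ^ #Ω' := by
    intro x
    rw [hL, Real.exp_log (by positivity), hQ]
    dsimp only
    split_ifs
    · rw [hPE]
      have h4 : (1 : ℝ) / (Mn / 2 ^ #Ω') / 2 ^ #Ω' = 1 / Mn := by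
        field_simp
      rw [h4]
    · positivity
  have hHyp : ∀ i : ℕ, ∀ v ∈ insert z' Λ', ∑ τ ∈ T, (#{x : EN.Om #Ω' | v ∈ S' τ i x} : ℝ) / 2 ^ #Ω' ≤ NN := by
    intro i v hv
    refine le_trans (Finset.sum_le_sum fun τ hτ => ?_) (hsumU _ (hmem v hv))
    have h4 := hPr (F τ (min i (j + 1)) ((e.symm v : {v // v ∈ Ω'}) : V)) (hCDF τ hτ _ _)
      (fun x => v ∈ S' τ i x) fun x => hS' τ i x v
    calc (#{x : EN.Om #Ω' | v ∈ S' τ i x} : ℝ) / 2 ^ #Ω' =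
        Pr (F τ (min i (j + 1)) ((e.symm v : {v // v ∈ Ω'}) : V)) := h4.symm
      _ ≤ Pr {β : V → Bool | (((e.symm v : {v // v ∈ Ω'}) : V).1 - τ.1,
          ((e.symm v : {v // v ∈ Ω'}) : V).2 - τ.2) ∈ S (j + 1) β} := by
          rw [hPrF]
          exact DRR_mono fun β hβ => DRR_sub hS β (min_le_right _ _) hβ
  have key := hENT #Ω' V T S' Λ' z' NN hR
    (fun i v hv => by
      have h4 := hHyp i v hv
      refine le_trans (le_of_eq ?_) h4
      refine Finset.sum_congr rfl fun τ _ => ?_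
      congr 2)
    Q L hLaw hQΛ hL0 hQL z' (mem_insert_self _ _)
  have hterm : ∀ τ ∈ T, Pr (E ∩ {β | (z.1 - τ.1, z.2 - τ.2) ∈
      S (j + 1) (fun v => β (v.1 + τ.1, v.2 + τ.2))}) =
      Pr E * ∑ x with z' ∈ S' τ (j + 1) x, Q x := by
    intro τ hτ
    rw [← hFeq τ (j + 1) z]
    have hCD : CD (E ∩ F τ (j + 1) z) Ω' := fun b b' hb =>
      and_congr (hEΩ b b' hb) (hCDF τ hτ (j + 1) z b b' hb)
    have hmin : min (j + 1) (j + 1) = j + 1 := min_self _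
    have h4 := hPr (E ∩ F τ (j + 1) z) hCD (fun x => z' ∈ S' τ (j + 1) x ∧ ex x ∈ E) (fun x => by
      rw [hS', hz'', hmin]
      exact and_comm)
    rw [h4, hPE, hQ, ← Finset.sum_filter, Finset.filter_filter, Finset.sum_const, nsmul_eq_mul]
    field_simp
  have hcardΛ : #Λ' ≤ #Λ := by
    refine Finset.card_le_card_of_injOn (fun i : Fin #Ω' => ((e.symm i : {v // v ∈ Ω'}) : V)) ?_ ?_
    · intro i hi
      have hi' : i ∈ Λ' := hi
      rw [hΛ', mem_filter] at hi'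
      exact hi'.2
    · intro i _ i' _ h
      exact hε h
  have hlog0 : 0 ≤ Real.log (#Λ' + 3) := Real.log_nonneg (by
    have : (0 : ℝ) ≤ #Λ' := Nat.cast_nonneg _
    linarith)
  have hlog : Real.log (#Λ' + 3) ≤ Real.log (#T + #Λ + 3) := by
    have h4 : (0 : ℝ) ≤ #Λ' := Nat.cast_nonneg _
    have h5 : (0 : ℝ) ≤ #T := Nat.cast_nonneg _
    have h6 : (#Λ' : ℝ) ≤ #Λ := by exact_mod_cast hcardΛ
    exact Real.log_le_log (by linarith) (by linarith)
  have hpow : (L + Real.log (#Λ' + 3)) ^ j ≤ (L + Real.log (#T + #Λ + 3)) ^ j :=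
    pow_le_pow_left₀ (by linarith) (by linarith) j
  show ∑ τ ∈ T, Pr (E ∩ {β | (z.1 - τ.1, z.2 - τ.2) ∈
      S (j + 1) (fun v => β (v.1 + τ.1, v.2 + τ.2))}) ≤
    C * Pr E * (Real.log (1 / Pr E) + Real.log (#T + #Λ + 3)) ^ j *
      ∑ v ∈ U, Pr {β : V → Bool | v ∈ S (j + 1) β}
  rw [sum_congr rfl hterm, ← Finset.mul_sum, ← hNN, ← hL]
  calc Pr E * ∑ τ ∈ T, ∑ x with z' ∈ S' τ (j + 1) x, Q x
      ≤ Pr E * (C * NN * (L + Real.log (#Λ' + 3)) ^ j) := by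
        refine mul_le_mul_of_nonneg_left ?_ hpos.le
        refine le_trans (le_of_eq ?_) key
        refine Finset.sum_congr rfl fun τ _ => ?_
        refine Finset.sum_congr ?_ fun _ _ => rfl
        ext x
        simp only [mem_filter]
    _ ≤ Pr E * (C * NN * (L + Real.log (#T + #Λ + 3)) ^ j) :=
        mul_le_mul_of_nonneg_left (mul_le_mul_of_nonneg_left hpow (mul_nonneg hC.le hNN0)) hpos.le
    _ = C * Pr E * (L + Real.log (#T + #Λ + 3)) ^ j * NN := by ring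

end TP.TW
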